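import Mathlib

set_option autoImplicit false

/-!
# Solutions of product equals `q` times sum, `q` prime: the key sum over primes

Let `f(n)` be the number of multisets of `n` positive integers with product `n` times the sum.
For a prime `q`, one entry of a solution is `q * z`.  Let `M` be the multiset of the other
entries that are at least `2`, `Y` its product and `exc M` the sum of `y - 1` over `M`.
The equation becomes `z * (Y - q) = q - 1 + exc M`, so that `d = Y - q` is a divisor of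
`Y - 1 + exc M`, `Y ≤ 4 * q`, and the solution is determined by the pair `(M, d)`.
Since `∑ 1 / Y ^ σ` over all multisets `M` of integers at least `2` converges for `σ > 1`, and the
number of divisors is `O(Y ^ δ)`, the sum of `f(q) / q ^ (1 + ε)` over primes `q` converges.
The sum of `1 / q` diverges, so `f(q) > q ^ ε` cannot hold for all large primes `q`.
-/

namespace Pool.Agent.Lib.MP_87cb84_nt

open Finset

/-- divisor bound -/
theorem divisor_bound (δ : ℝ) (hδ : 0 < δ) :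
    ∃ C : ℝ, 0 < C ∧ ∀ n : ℕ, 1 ≤ n → (n.divisors.card : ℝ) ≤ C * (n : ℝ) ^ δ := by
  -- choose B with 2 ≤ B^δ
  obtain ⟨B, hB⟩ : ∃ B : ℕ, (2 : ℝ) ^ (1 / δ) ≤ B := exists_nat_ge _
  have hlog2 : 0 < Real.log 2 := Real.log_pos (by norm_num)
  set K : ℝ := max 1 (1 / (δ * Real.log 2)) with hK
  have hK1 : 1 ≤ K := le_max_left _ _
  have hK0 : 0 < K := lt_of_lt_of_le one_pos hK1
  -- basic bound
  have hbasic : ∀ p a : ℕ, 2 ≤ p → ((a : ℝ) + 1) ≤ K * ((p : ℝ) ^ a) ^ δ := by
    intro p a hp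
    have hp0 : (0 : ℝ) < p := by positivity
    have h2p : (2 : ℝ) ≤ p := by exact_mod_cast hp
    have h1 : ((2 : ℝ) ^ a) ^ δ ≤ ((p : ℝ) ^ a) ^ δ := by
      apply Real.rpow_le_rpow (by positivity) _ hδ.le
      exact pow_le_pow_left₀ (by norm_num) h2p a
    have h2 : ((2 : ℝ) ^ a) ^ δ = Real.exp (a * (δ * Real.log 2)) := by
      rw [← Real.rpow_natCast, ← Real.rpow_mul (by norm_num), Real.rpow_def_of_pos (by norm_num)]
      congr 1; ring
    have h3 : (a : ℝ) * (δ * Real.log 2) + 1 ≤ Real.exp (a * (δ * Real.log 2)) :=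
      Real.add_one_le_exp _
    have hpos : 0 < δ * Real.log 2 := by positivity
    have h4 : (a : ℝ) + 1 ≤ K * ((a : ℝ) * (δ * Real.log 2) + 1) := by
      have h5 : (1 / (δ * Real.log 2)) ≤ K := le_max_right _ _
      have h6 : 1 ≤ K * (δ * Real.log 2) := by
        rw [div_le_iff₀ hpos] at h5; exact h5
      have ha : (0 : ℝ) ≤ a := by positivity
      nlinarith
    calc (a : ℝ) + 1 ≤ K * ((a : ℝ) * (δ * Real.log 2) + 1) := h4
      _ ≤ K * Real.exp (a * (δ * Real.log 2)) := by gcongr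
      _ = K * ((2 : ℝ) ^ a) ^ δ := by rw [h2]
      _ ≤ _ := by gcongr
  have hbig : ∀ p a : ℕ, B ≤ p → 2 ≤ p → ((a : ℝ) + 1) ≤ ((p : ℝ) ^ a) ^ δ := by
    intro p a hBp hp
    have hp0 : (0 : ℝ) < p := by positivity
    have h1 : (2 : ℝ) ≤ (p : ℝ) ^ δ := by
      have : (2 : ℝ) ^ (1 / δ) ≤ p := hB.trans (by exact_mod_cast hBp)
      calc (2 : ℝ) = ((2 : ℝ) ^ (1 / δ)) ^ δ := by
            rw [← Real.rpow_mul (by norm_num), one_div, inv_mul_cancel₀ hδ.ne', Real.rpow_one]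
        _ ≤ (p : ℝ) ^ δ := Real.rpow_le_rpow (by positivity) this hδ.le
    have h2 : ((p : ℝ) ^ a) ^ δ = ((p : ℝ) ^ δ) ^ a := by
      rw [← Real.rpow_natCast, ← Real.rpow_natCast, ← Real.rpow_mul hp0.le, ← Real.rpow_mul hp0.le,
        mul_comm]
    rw [h2]
    calc (a : ℝ) + 1 ≤ 2 ^ a := by
          have := Nat.lt_two_pow_self (n := a)
          exact_mod_cast this
      _ ≤ ((p : ℝ) ^ δ) ^ a := pow_le_pow_left₀ (by norm_num) h1 a
  refine ⟨K ^ B, by positivity, ?_⟩
  intro n hn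
  have hn0 : n ≠ 0 := by omega
  rw [Nat.card_divisors hn0]
  have hprod : (n : ℝ) = ∏ p ∈ n.primeFactors, (p : ℝ) ^ (n.factorization p) := by
    conv_lhs => rw [← Nat.prod_factorization_pow_eq_self hn0]
    rw [Nat.prod_factorization_eq_prod_primeFactors]
    push_cast
    rfl
  have hrp : (n : ℝ) ^ δ = ∏ p ∈ n.primeFactors, ((p : ℝ) ^ (n.factorization p)) ^ δ := by
    conv_lhs => rw [hprod]
    rw [Real.finsetProd_rpow]
    intro i _
    positivity
  rw [hrp]
  push_cast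
  have hstep : ∏ p ∈ n.primeFactors, ((n.factorization p : ℝ) + 1) ≤
      ∏ p ∈ n.primeFactors, ((if p < B then K else 1) * ((p : ℝ) ^ (n.factorization p)) ^ δ) := by
    apply Finset.prod_le_prod
    · intro p _; positivity
    · intro p hp
      have h2 : 2 ≤ p := (Nat.prime_of_mem_primeFactors hp).two_le
      split_ifs with h
      · exact hbasic p _ h2
      · rw [one_mul]; exact hbig p _ (not_lt.mp h) h2
  refine hstep.trans ?_
  rw [Finset.prod_mul_distrib]
  have hK2 : ∏ p ∈ n.primeFactors, (if p < B then K else 1) ≤ K ^ B := by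
    rw [Finset.prod_ite]
    simp only [Finset.prod_const, one_pow, mul_one]
    apply pow_le_pow_right₀ hK1
    calc _ ≤ (Finset.range B).card := by
          apply Finset.card_le_card
          intro p hp
          simp only [Finset.mem_filter] at hp
          simpa using hp.2
      _ = B := by simp
  gcongr

theorem summable_geo_bound (σ : ℝ) (hσ : 1 < σ) (y L : ℕ) (hy : 2 ≤ y) :
    ∑ j ∈ Finset.range (L + 1), ((y : ℝ) ^ (-σ)) ^ j ≤ Real.exp (2 * (y : ℝ) ^ (-σ)) := by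
  have hy0 : (0 : ℝ) < y := by positivity
  have h2y : (2 : ℝ) ≤ y := by exact_mod_cast hy
  set r : ℝ := (y : ℝ) ^ (-σ) with hr
  have hr0 : 0 < r := Real.rpow_pos_of_pos hy0 _
  have hr2 : r ≤ 1 / 2 := by
    rw [hr, Real.rpow_neg hy0.le, one_div]
    apply inv_anti₀ (by norm_num)
    calc (2 : ℝ) ≤ y := h2y
      _ = (y : ℝ) ^ (1 : ℝ) := (Real.rpow_one _).symm
      _ ≤ (y : ℝ) ^ σ := Real.rpow_le_rpow_of_exponent_le (by linarith) hσ.le
  have hr1 : r < 1 := by linarith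
  have h1 : ∑ j ∈ Finset.range (L + 1), r ^ j ≤ (1 - r)⁻¹ := by
    have := Summable.sum_le_tsum (f := fun j : ℕ => r ^ j) (Finset.range (L + 1))
      (fun i _ => by positivity) (summable_geometric_of_lt_one hr0.le hr1)
    rwa [tsum_geometric_of_lt_one hr0.le hr1] at this
  have h2 : (1 - r)⁻¹ ≤ 1 + 2 * r := by
    rw [inv_le_iff_one_le_mul₀ (by linarith)]
    nlinarith
  have h3 : 2 * r + 1 ≤ Real.exp (2 * r) := Real.add_one_le_exp _
  linarith

theorem multiset_sum_bound (σ : ℝ) (hσ : 1 < σ) :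
    ∃ C : ℝ, 0 < C ∧ ∀ F : Finset (Multiset ℕ), (∀ M ∈ F, ∀ y ∈ M, 2 ≤ y) →
      ∑ M ∈ F, ((M.prod : ℕ) : ℝ) ^ (-σ) ≤ C := by
  have hsum : Summable (fun n : ℕ => (n : ℝ) ^ (-σ)) := by
    rw [Real.summable_nat_rpow]; linarith
  refine ⟨Real.exp (2 * ∑' n : ℕ, (n : ℝ) ^ (-σ)), Real.exp_pos _, ?_⟩
  intro F hF
  classical
  -- bounds
  obtain ⟨K, hK⟩ : ∃ K : ℕ, ∀ M ∈ F, ∀ y ∈ M, y ≤ K := by
    refine ⟨F.sup (fun M => M.sup), ?_⟩
    intro M hM y hy
    exact (Multiset.le_sup hy).trans (Finset.le_sup (f := fun M : Multiset ℕ => M.sup) hM)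
  obtain ⟨L, hL⟩ : ∃ L : ℕ, ∀ M ∈ F, ∀ y, M.count y ≤ L := by
    refine ⟨F.sup (fun M => M.card), ?_⟩
    intro M hM y
    exact (Multiset.count_le_card y M).trans (Finset.le_sup (f := fun M : Multiset ℕ => M.card) hM)
  set S : Finset ℕ := Finset.Icc 2 K with hS
  let g : Multiset ℕ → ((a : ℕ) → a ∈ S → ℕ) := fun M a _ => M.count a
  have hsub : ∀ M ∈ F, M.toFinset ⊆ S := by
    intro M hM y hy
    rw [Multiset.mem_toFinset] at hy
    exact Finset.mem_Icc.mpr ⟨hF M hM y hy, hK M hM y hy⟩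
  have hmem : ∀ M ∈ F, g M ∈ S.pi (fun _ => Finset.range (L + 1)) := by
    intro M hM
    rw [Finset.mem_pi]
    intro a ha
    rw [Finset.mem_range]
    exact Nat.lt_succ_of_le (hL M hM a)
  have hinj : Set.InjOn g (F : Set (Multiset ℕ)) := by
    intro M hM M' hM' h
    ext y
    by_cases hy : y ∈ S
    · have := congrFun (congrFun h y) hy
      exact this
    · have h1 : y ∉ M := fun h' => hy (hsub M hM (Multiset.mem_toFinset.mpr h'))
      have h2 : y ∉ M' := fun h' => hy (hsub M' hM' (Multiset.mem_toFinset.mpr h'))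
      rw [Multiset.count_eq_zero_of_notMem h1, Multiset.count_eq_zero_of_notMem h2]
  have hval : ∀ M ∈ F, ((M.prod : ℕ) : ℝ) ^ (-σ) =
      ∏ x ∈ S.attach, ((x.1 : ℝ) ^ (-σ)) ^ (g M x.1 x.2) := by
    intro M hM
    have h1 : M.prod = ∏ x ∈ S, x ^ (M.count x) :=
      Finset.prod_multiset_count_of_subset M S (hsub M hM)
    rw [h1]
    push_cast
    rw [← Real.finsetProd_rpow _ _ (fun i _ => by positivity)]
    rw [← Finset.prod_attach]
    apply Finset.prod_congr rfl
    intro x _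
    rw [← Real.rpow_natCast, ← Real.rpow_natCast, ← Real.rpow_mul (by positivity),
      ← Real.rpow_mul (by positivity), mul_comm]
  calc ∑ M ∈ F, ((M.prod : ℕ) : ℝ) ^ (-σ)
      = ∑ M ∈ F, ∏ x ∈ S.attach, ((x.1 : ℝ) ^ (-σ)) ^ (g M x.1 x.2) :=
        Finset.sum_congr rfl hval
    _ = ∑ p ∈ F.image g, ∏ x ∈ S.attach, ((x.1 : ℝ) ^ (-σ)) ^ (p x.1 x.2) := by
        rw [Finset.sum_image hinj]
    _ ≤ ∑ p ∈ S.pi (fun _ => Finset.range (L + 1)),
          ∏ x ∈ S.attach, ((x.1 : ℝ) ^ (-σ)) ^ (p x.1 x.2) := by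
        apply Finset.sum_le_sum_of_subset_of_nonneg
        · intro p hp
          rw [Finset.mem_image] at hp
          obtain ⟨M, hM, rfl⟩ := hp
          exact hmem M hM
        · intro p _ _
          positivity
    _ = ∏ y ∈ S, ∑ j ∈ Finset.range (L + 1), ((y : ℝ) ^ (-σ)) ^ j := by
        rw [Finset.prod_sum]
    _ ≤ ∏ y ∈ S, Real.exp (2 * (y : ℝ) ^ (-σ)) := by
        apply Finset.prod_le_prod
        · intro y _; positivity
        · intro y hy
          exact summable_geo_bound σ hσ y L (Finset.mem_Icc.mp hy).1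
    _ = Real.exp (2 * ∑ y ∈ S, (y : ℝ) ^ (-σ)) := by
        rw [← Real.exp_sum, Finset.mul_sum]
    _ ≤ _ := by
        apply Real.exp_le_exp.mpr
        have := Summable.sum_le_tsum S (fun i _ => by positivity) hsum
        linarith

/-- excess of a multiset -/
def exc (M : Multiset ℕ) : ℕ := (M.map (fun y => y - 1)).sum

theorem exc_cons (a : ℕ) (M : Multiset ℕ) : exc (a ::ₘ M) = (a - 1) + exc M := by
  simp [exc]

theorem exc_le (M : Multiset ℕ) (h : ∀ y ∈ M, 1 ≤ y) : exc M + 1 ≤ M.prod := by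
  induction M using Multiset.induction_on with
  | empty => simp [exc]
  | cons a M ih =>
    have ha : 1 ≤ a := h a (Multiset.mem_cons_self a M)
    have hM : ∀ y ∈ M, 1 ≤ y := fun y hy => h y (Multiset.mem_cons_of_mem hy)
    have := ih hM
    rw [exc_cons, Multiset.prod_cons]
    obtain ⟨b, rfl⟩ : ∃ b, a = b + 1 := ⟨a - 1, by omega⟩
    have hp : 1 ≤ M.prod := by omega
    simp only [Nat.add_sub_cancel]
    nlinarith

/-- prod bound: if `d ∣ prod - 1 + exc`, with `d = prod - q`, then `prod ≤ 4 q`. -/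
theorem prod_le_four (M : Multiset ℕ) (h : ∀ y ∈ M, 2 ≤ y) (q d : ℕ) (hq : 2 ≤ q) (hd : 1 ≤ d)
    (hMd : M.prod = q + d) (hdvd : d ∣ (q - 1) + exc M) : M.prod ≤ 4 * q := by
  have hle : d ≤ (q - 1) + exc M := Nat.le_of_dvd (by omega) hdvd
  rcases Multiset.empty_or_exists_mem M with hM | ⟨a, ha⟩
  · subst hM; simp at hMd; omega
  obtain ⟨M', rfl⟩ := Multiset.exists_cons_of_mem ha
  have ha2 : 2 ≤ a := h a ha
  rcases Multiset.empty_or_exists_mem M' with hM' | ⟨b, hb⟩
  · subst hM'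
    simp only [Multiset.prod_cons, Multiset.prod_zero, mul_one] at hMd ⊢
    rw [exc_cons] at hdvd
    simp only [exc, Multiset.map_zero, Multiset.sum_zero, add_zero] at hdvd
    -- d ∣ (q-1) + (a-1), a = q+d
    have h1 : (q - 1) + (a - 1) = 2 * (q - 1) + d := by omega
    rw [h1] at hdvd
    have h2 : d ∣ 2 * (q - 1) := (Nat.dvd_add_left (dvd_refl d)).mp hdvd
    have h3 : d ≤ 2 * (q - 1) := Nat.le_of_dvd (by omega) h2
    omega
  · obtain ⟨M'', rfl⟩ := Multiset.exists_cons_of_mem hb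
    have hb2 : 2 ≤ b := h b (Multiset.mem_cons_of_mem hb)
    have hM'' : ∀ y ∈ (b ::ₘ M''), 1 ≤ y := fun y hy => by
      have := h y (Multiset.mem_cons_of_mem hy); omega
    have he := exc_le _ hM''
    have hp1 : 2 ≤ (b ::ₘ M'').prod := by
      rw [Multiset.prod_cons]
      have hM3 : ∀ y ∈ M'', 1 ≤ y := fun y hy => by
        have := h y (Multiset.mem_cons_of_mem (Multiset.mem_cons_of_mem hy)); omega
      have := exc_le M'' hM3
      nlinarith
    rw [exc_cons a] at hle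
    rw [Multiset.prod_cons a] at hMd ⊢
    set P := (b ::ₘ M'').prod
    -- (a-1) + (P-1) ≤ a P / 2
    have h4 : 2 * a + 2 * P ≤ a * P + 4 := by
      obtain ⟨a', rfl⟩ : ∃ a', a = a' + 2 := ⟨a - 2, by omega⟩
      obtain ⟨P', hP'⟩ : ∃ P', P = P' + 2 := ⟨P - 2, by omega⟩
      rw [hP']; ring_nf; nlinarith [Nat.zero_le (a' * P')]
    omega

/-- structure of the solutions when `q` is prime. -/
theorem structure_prime (q : ℕ) (hq : q.Prime) (s : Multiset ℕ) (hcard : Multiset.card s = q)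
    (hpos : ∀ x ∈ s, 0 < x) (hs : s.prod = q * s.sum) :
    ∃ (M : Multiset ℕ) (d : ℕ), (∀ y ∈ M, 2 ≤ y) ∧ 1 ≤ d ∧ M.prod = q + d ∧
      d ∣ (q - 1) + exc M ∧
      s = (q * (((q - 1) + exc M) / d)) ::ₘ (M + Multiset.replicate (q - 1 - Multiset.card M) 1) := by
  have hq2 : 2 ≤ q := hq.two_le
  obtain ⟨x, hx, hqx⟩ : ∃ x ∈ s, q ∣ x :=
    (Nat.prime_iff.mp hq).exists_mem_multiset_dvd (hs ▸ dvd_mul_right q s.sum)
  obtain ⟨t, rfl⟩ := Multiset.exists_cons_of_mem hx
  obtain ⟨z, rfl⟩ := hqx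
  have hxpos : 0 < q * z := hpos _ (Multiset.mem_cons_self _ _)
  have hz : 1 ≤ z := by
    rcases Nat.eq_zero_or_pos z with h | h
    · subst h; simp at hxpos
    · exact h
  have htpos : ∀ y ∈ t, 0 < y := fun y hy => hpos y (Multiset.mem_cons_of_mem hy)
  rw [Multiset.card_cons] at hcard
  rw [Multiset.prod_cons, Multiset.sum_cons] at hs
  have hs' : z * t.prod = q * z + t.sum := by
    have : q * (z * t.prod) = q * (q * z + t.sum) := by rw [← mul_assoc]; exact hs
    exact Nat.eq_of_mul_eq_mul_left (by omega) this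
  -- decompose t
  set M := t.filter (fun y => 2 ≤ y) with hM
  have ht : t = M + Multiset.replicate (t.card - M.card) 1 := by
    have h1 : t.filter (fun y => ¬ 2 ≤ y) = Multiset.replicate (t.card - M.card) 1 := by
      rw [Multiset.eq_replicate]
      constructor
      · have h2 : M.card + (t.filter (fun y => ¬ 2 ≤ y)).card = t.card := by
          rw [← Multiset.card_add, hM, Multiset.filter_add_not]
        omega
      · intro b hb
        rw [Multiset.mem_filter] at hb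
        have := htpos b hb.1
        omega
    rw [← h1]
    exact (Multiset.filter_add_not (fun y => 2 ≤ y) t).symm
  have hMcard : M.card ≤ t.card := Multiset.card_le_card (Multiset.filter_le _ _)
  have hMge : ∀ y ∈ M, 2 ≤ y := fun y hy => (Multiset.mem_filter.mp hy).2
  have htprod : t.prod = M.prod := by
    conv_lhs => rw [ht]
    simp
  have hexc : ∀ N : Multiset ℕ, (∀ y ∈ N, 2 ≤ y) → N.sum = N.card + exc N := by
    intro N hN
    induction N using Multiset.induction_on with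
    | empty => simp [exc]
    | cons a N ih =>
      have h2 := hN a (Multiset.mem_cons_self a N)
      rw [Multiset.sum_cons, exc_cons, Multiset.card_cons,
        ih (fun y hy => hN y (Multiset.mem_cons_of_mem hy))]
      omega
  have htsum : t.sum = (q - 1) + exc M := by
    have h1 : t.sum = M.sum + (t.card - M.card) := by
      conv_lhs => rw [ht]
      simp
    rw [h1, hexc M hMge]
    omega
  rw [htprod, htsum] at hs'
  have hgt : q < M.prod := by
    by_contra hcon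
    push Not at hcon
    have : z * M.prod ≤ z * q := Nat.mul_le_mul_left z hcon
    rw [mul_comm z q] at this
    omega
  obtain ⟨d, hd⟩ : ∃ d, M.prod = q + d := ⟨M.prod - q, by omega⟩
  have hzd : z * d = (q - 1) + exc M := by
    rw [hd, mul_add, mul_comm z q] at hs'
    omega
  have hd1 : 1 ≤ d := by omega
  refine ⟨M, d, hMge, hd1, hd, ⟨z, by rw [← hzd, mul_comm]⟩, ?_⟩
  have hzz : ((q - 1) + exc M) / d = z := by
    rw [← hzd]; exact Nat.mul_div_cancel z (by omega)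
  rw [hzz]
  have : t.card = q - 1 := by omega
  rw [← this]
  congr 1

theorem sum_primes_bound (ε : ℝ) (hε : 0 < ε) :
    ∃ C : ℝ, ∀ (P : Finset ℕ) (T : ℕ → Finset (Multiset ℕ)), (∀ q ∈ P, q.Prime) →
      (∀ q ∈ P, ∀ s ∈ T q, Multiset.card s = q ∧ (∀ x ∈ s, 0 < x) ∧ s.prod = q * s.sum) →
      ∑ q ∈ P, ((T q).card : ℝ) * (q : ℝ) ^ (-(1 + ε)) ≤ C := by
  classical
  obtain ⟨C1, hC1, hdiv⟩ := divisor_bound (ε / 2) (by positivity)
  obtain ⟨C2, hC2, hmul⟩ := multiset_sum_bound (1 + ε / 2) (by linarith)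
  refine ⟨(4 : ℝ) ^ (1 + ε) * (C1 * (2 : ℝ) ^ (ε / 2)) * C2, ?_⟩
  intro P T hP hT
  -- the choice of (M, d)
  have hex : ∀ x : (Σ _ : ℕ, Multiset ℕ), ∃ y : (Σ _ : Multiset ℕ, ℕ), x ∈ P.sigma T →
      (∀ z ∈ y.1, 2 ≤ z) ∧ 1 ≤ y.2 ∧ y.1.prod = x.1 + y.2 ∧ y.2 ∣ (x.1 - 1) + exc y.1 ∧
      x.2 = (x.1 * (((x.1 - 1) + exc y.1) / y.2)) ::ₘ
        (y.1 + Multiset.replicate (x.1 - 1 - Multiset.card y.1) 1) := by
    intro x
    by_cases hx : x ∈ P.sigma T
    · rw [Finset.mem_sigma] at hx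
      obtain ⟨h1, h2, h3⟩ := hT x.1 hx.1 x.2 hx.2
      obtain ⟨M, d, h⟩ := structure_prime x.1 (hP x.1 hx.1) x.2 h1 h2 h3
      exact ⟨⟨M, d⟩, fun _ => h⟩
    · exact ⟨⟨0, 0⟩, fun h => absurd h hx⟩
  choose φ hφ using hex
  have hinj : Set.InjOn φ (P.sigma T : Set (Σ _ : ℕ, Multiset ℕ)) := by
    intro x hx x' hx' heq
    obtain ⟨_, _, a3, _, a5⟩ := hφ x hx
    obtain ⟨_, _, b3, _, b5⟩ := hφ x' hx'
    rw [← heq] at b3 b5
    have hq : x.1 = x'.1 := by omega
    have hs : x.2 = x'.2 := by rw [a5, b5, hq]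
    cases x; cases x'; simp only at hq hs; rw [hq, hs]
  -- set of M
  set 𝓜 : Finset (Multiset ℕ) := (P.sigma T).image (fun x => (φ x).1) with h𝓜
  have h𝓜ge : ∀ M ∈ 𝓜, ∀ y ∈ M, 2 ≤ y := by
    intro M hM
    rw [h𝓜, Finset.mem_image] at hM
    obtain ⟨x, hx, rfl⟩ := hM
    exact (hφ x hx).1
  have hprodpos : ∀ M ∈ 𝓜, 1 ≤ M.prod := by
    intro M hM
    have := exc_le M (fun y hy => by have := h𝓜ge M hM y hy; omega)
    omega
  calc ∑ q ∈ P, ((T q).card : ℝ) * (q : ℝ) ^ (-(1 + ε))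
      = ∑ x ∈ P.sigma T, (x.1 : ℝ) ^ (-(1 + ε)) := by
        rw [Finset.sum_sigma]
        apply Finset.sum_congr rfl
        intro q _
        simp
    _ ≤ ∑ x ∈ P.sigma T, (4 : ℝ) ^ (1 + ε) * (((φ x).1.prod : ℕ) : ℝ) ^ (-(1 + ε)) := by
        apply Finset.sum_le_sum
        intro x hx
        obtain ⟨h1, h2, h3, h4, _⟩ := hφ x hx
        have hprime : x.1.Prime := hP x.1 (Finset.mem_sigma.mp hx).1
        have h5 := prod_le_four (φ x).1 h1 x.1 (φ x).2 hprime.two_le h2 h3 h4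
        have hx0 : (0 : ℝ) < x.1 := by exact_mod_cast hprime.pos
        have hp0 : (0 : ℝ) < (((φ x).1.prod : ℕ) : ℝ) := by
          have : 0 < (φ x).1.prod := by omega
          exact_mod_cast this
        have h6 : (((φ x).1.prod : ℕ) : ℝ) ≤ 4 * x.1 := by exact_mod_cast h5
        have h7 : (((φ x).1.prod : ℕ) : ℝ) ^ (1 + ε) ≤ (4 : ℝ) ^ (1 + ε) * (x.1 : ℝ) ^ (1 + ε) := by
          rw [← Real.mul_rpow (by norm_num) hx0.le]
          exact Real.rpow_le_rpow hp0.le h6 (by linarith)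
        rw [Real.rpow_neg hx0.le, Real.rpow_neg hp0.le]
        have h8 : (0 : ℝ) < (x.1 : ℝ) ^ (1 + ε) := Real.rpow_pos_of_pos hx0 _
        have h9 : (0 : ℝ) < (((φ x).1.prod : ℕ) : ℝ) ^ (1 + ε) := Real.rpow_pos_of_pos hp0 _
        rw [inv_le_iff_one_le_mul₀ h8]
        rw [mul_assoc, mul_comm, mul_assoc, inv_mul_eq_div, one_le_div h9]
        linarith [mul_comm ((4 : ℝ) ^ (1 + ε)) ((x.1 : ℝ) ^ (1 + ε))]
    _ = ∑ y ∈ (P.sigma T).image φ, (4 : ℝ) ^ (1 + ε) * ((y.1.prod : ℕ) : ℝ) ^ (-(1 + ε)) := by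
        rw [Finset.sum_image hinj]
    _ ≤ ∑ y ∈ 𝓜.sigma (fun M => (M.prod - 1 + exc M).divisors),
          (4 : ℝ) ^ (1 + ε) * ((y.1.prod : ℕ) : ℝ) ^ (-(1 + ε)) := by
        apply Finset.sum_le_sum_of_subset_of_nonneg
        · intro y hy
          rw [Finset.mem_image] at hy
          obtain ⟨x, hx, rfl⟩ := hy
          obtain ⟨h1, h2, h3, h4, _⟩ := hφ x hx
          have hprime : x.1.Prime := hP x.1 (Finset.mem_sigma.mp hx).1
          have := hprime.two_le
          rw [Finset.mem_sigma]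
          refine ⟨Finset.mem_image_of_mem _ hx, ?_⟩
          rw [Nat.mem_divisors]
          constructor
          · have e1 : (φ x).1.prod - 1 + exc (φ x).1 = (φ x).2 + ((x.1 - 1) + exc (φ x).1) := by
              omega
            rw [e1]
            exact (Nat.dvd_add_right (dvd_refl _)).mpr h4
          · omega
        · intro y _ _
          positivity
    _ = ∑ M ∈ 𝓜, (((M.prod - 1 + exc M).divisors.card : ℕ) : ℝ) *
          ((4 : ℝ) ^ (1 + ε) * ((M.prod : ℕ) : ℝ) ^ (-(1 + ε))) := by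
        rw [Finset.sum_sigma]
        apply Finset.sum_congr rfl
        intro M _
        simp
    _ ≤ ∑ M ∈ 𝓜, ((4 : ℝ) ^ (1 + ε) * (C1 * (2 : ℝ) ^ (ε / 2))) *
          ((M.prod : ℕ) : ℝ) ^ (-(1 + ε / 2)) := by
        apply Finset.sum_le_sum
        intro M hM
        have hge := h𝓜ge M hM
        have hp := hprodpos M hM
        have hp0 : (0 : ℝ) < ((M.prod : ℕ) : ℝ) := by exact_mod_cast hp
        have hexc := exc_le M (fun y hy => by have := hge y hy; omega)
        rcases Nat.eq_zero_or_pos (M.prod - 1 + exc M) with hz | hz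
        · rw [hz]
          simp only [Nat.divisors_zero, Finset.card_empty, Nat.cast_zero, zero_mul]
          positivity
        have hdv := hdiv (M.prod - 1 + exc M) hz
        have h10 : ((M.prod - 1 + exc M : ℕ) : ℝ) ≤ 2 * ((M.prod : ℕ) : ℝ) := by
          have : M.prod - 1 + exc M ≤ 2 * M.prod := by omega
          exact_mod_cast this
        have h11 : ((M.prod - 1 + exc M : ℕ) : ℝ) ^ (ε / 2) ≤
            (2 : ℝ) ^ (ε / 2) * ((M.prod : ℕ) : ℝ) ^ (ε / 2) := by
          rw [← Real.mul_rpow (by norm_num) hp0.le]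
          exact Real.rpow_le_rpow (by positivity) h10 (by positivity)
        have h12 : ((M.prod : ℕ) : ℝ) ^ (-(1 + ε / 2)) =
            ((M.prod : ℕ) : ℝ) ^ (ε / 2) * ((M.prod : ℕ) : ℝ) ^ (-(1 + ε)) := by
          rw [← Real.rpow_add hp0]; congr 1; ring
        rw [h12]
        have h13 : (0 : ℝ) < ((M.prod : ℕ) : ℝ) ^ (-(1 + ε)) := Real.rpow_pos_of_pos hp0 _
        calc (((M.prod - 1 + exc M).divisors.card : ℕ) : ℝ) *
              ((4 : ℝ) ^ (1 + ε) * ((M.prod : ℕ) : ℝ) ^ (-(1 + ε)))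
            ≤ (C1 * ((2 : ℝ) ^ (ε / 2) * ((M.prod : ℕ) : ℝ) ^ (ε / 2))) *
              ((4 : ℝ) ^ (1 + ε) * ((M.prod : ℕ) : ℝ) ^ (-(1 + ε))) := by
              apply mul_le_mul_of_nonneg_right _ (by positivity)
              exact hdv.trans (mul_le_mul_of_nonneg_left h11 hC1.le)
          _ = _ := by ring
    _ = ((4 : ℝ) ^ (1 + ε) * (C1 * (2 : ℝ) ^ (ε / 2))) *
          ∑ M ∈ 𝓜, ((M.prod : ℕ) : ℝ) ^ (-(1 + ε / 2)) := by
        rw [Finset.mul_sum]
    _ ≤ _ := by
        apply mul_le_mul_of_nonneg_left (hmul 𝓜 h𝓜ge) (by positivity)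

end Pool.Agent.Lib.MP_87cb84_nt
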